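import Pool.Agent.Work.MP_0d53be_an.Full.Defs
import Pool.Agent.Work.MP_0d53be_an.Sum
import Pool.Agent.Work.MP_0d53be_an.Avg

/-!
# C/Count: the counting theorem for fans

`b` quasi-nilpotent in a commutative Banach algebra `B`, `b^(M+1) ≠ 0`. There is `ε > 0` (the one
of `count_norm`, independent of `K₁`) such that for every `K₁ ≥ 1` there is `C` such that for all
`R, Nf ≥ 1` with `Nf ≤ R`: if `F w`, `w < Nf - 1`, are finite sets of
pairs `(N, m)` of natural numbers with `R ≤ 2N`, `N ≤ M R`, `m/(K₁ N) ≤ 2π/Nf`, and for which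
`θ = 2πw/Nf + m/(K₁N)` is a near return: `‖(1 + e^{iθ} b)^N b^M - l b^M‖ < ε` for some `|l| = 1`,
then `∑_{w < Nf - 1} card (F w) ≤ C R`.

Proof. Apply `count_norm` (file `../Cnt.lean`) to the operator `T = ` multiplication by `b` on `B`
(`ContinuousLinearMap.mul ℂ B b`), `v = b^M`, `T v = b^(M+1) ≠ 0`. `QN T`: `T^j x = b^j x`,
`‖T^j‖ ≤ ‖b^j‖` (for `j = 0`: `‖T^0‖ ≤ 1 ≤ C/…`; add one to the constant). It gives `ε > 0` and
`Cnt T v ε (‖T^i‖)`, i.e. `c > 0`, `K > 0` such that for measurable `S n` with 'every `t ∈ S n` is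
within `c/n` of a point of `Nr T v ε n`': `∑_{n < N'} n |S n ∩ (0, 2π]| ≤ K (1 + log (ES _ N'))`; and
`log (ES _ N') ≤ C' + 2 N'` (`log_ES_small` in `../Avg.lean`, `δ = 1`). The near return condition
says exactly `θ ∈ Nr T v ε N` (`((1 + cis θ • T)^N) v = (1 + e^{iθ}b)^N b^M`).
Let `c' = min c (1/K₁) ≤ 1`... also `c' ≤ 1`. For a parity `π ∈ {0,1}` let `S_N` be the union of the
intervals `(θ, θ + c'/(2N)]`, `θ = 2πw/Nf + m/(K₁N)`, over `w < Nf - 1` with `w ≡ π mod 2` and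
`(N, m) ∈ F w`. For fixed `N`: two different `m` (same `w`) give `θ` at distance
`≥ 1/(K₁ N) ≥ c'/N`; for `w ≠ w'` of the same parity the intervals lie in
`[2πw/Nf, 2πw/Nf + 2π/Nf + c'/(2N)]`, and `c'/(2N) < 2π/Nf` (as `Nf ≤ R ≤ 2N`, `c' ≤ 1`), so they
are disjoint. All lie in `(0, 2π]` because `w ≤ Nf - 2`. So
`|S_N ∩ (0,2π]| = (c'/(2N)) #{(w, m)}` and `∑_N N |S_N| = (c'/2) ∑_{w ≡ π} card (F w)`, where
`N < M R + 1`. Hence `∑_{w≡π} card (F w) ≤ (2/c') K (1 + C' + 2 (MR + 1)) ≤ C R`. Add both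
parities.
-/

set_option autoImplicit false

namespace Pool.Agent.Work.MP_0d53be_an.Full

open MeasureTheory Set

private theorem vol_sep {ι : Type*} (P : Finset ι) (θ : ι → ℝ) {δ : ℝ} (hδ : 0 ≤ δ)
    (hs : ∀ x ∈ P, ∀ y ∈ P, x ≠ y → δ ≤ |θ x - θ y|) {L : ℝ}
    (h0 : ∀ x ∈ P, 0 ≤ θ x) (h1 : ∀ x ∈ P, θ x + δ ≤ L) :
    volume.real ((⋃ x ∈ P, Ioc (θ x) (θ x + δ)) ∩ Ioc 0 L) = P.card * δ := by
  have e : (⋃ x ∈ P, Ioc (θ x) (θ x + δ)) ∩ Ioc 0 L = ⋃ x ∈ P, Ioc (θ x) (θ x + δ) := by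
    rw [inter_eq_left]
    exact iUnion₂_subset fun x hx => Ioc_subset_Ioc (h0 x hx) (h1 x hx)
  rw [e]
  have hd : (P : Set ι).PairwiseDisjoint (fun x => Ioc (θ x) (θ x + δ)) := by
    intro x hx y hy hxy
    have h2 := hs x hx y hy hxy
    rw [Function.onFun, Set.disjoint_left]
    intro z hz hz'
    rcases le_abs.1 h2 with h3 | h3
    · linarith [hz.1, hz'.2]
    · linarith [hz.2, hz'.1]
  rw [measureReal_biUnion_finset hd (fun _ _ => measurableSet_Ioc)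
    (fun _ _ => by rw [Real.volume_Ioc]; exact ENNReal.ofReal_ne_top)]
  have e2 : ∀ x ∈ P, volume.real (Ioc (θ x) (θ x + δ)) = δ := by
    intro x _
    rw [Real.volume_real_Ioc_of_le (by linarith)]
    ring
  rw [Finset.sum_congr rfl e2, Finset.sum_const, nsmul_eq_mul]

section

variable {B : Type*} [NormedCommRing B] [NormedAlgebra ℂ B]

private theorem mul_pow_apply (b : B) (j : ℕ) (x : B) :
    ((ContinuousLinearMap.mul ℂ B b) ^ j) x = b ^ j * x := by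
  induction j with
  | zero => simp
  | succ j ih =>
    rw [pow_succ', pow_succ', ContinuousLinearMap.mul_apply, ih,
      ContinuousLinearMap.mul_apply', mul_assoc]

private theorem mul_QN {b : B} (h : QNb b) : QN (ContinuousLinearMap.mul ℂ B b) := by
  intro r hr
  obtain ⟨C, hC⟩ := h r hr
  refine ⟨C, fun j => le_trans ?_ (hC j)⟩
  refine mul_le_mul_of_nonneg_left ?_ (pow_nonneg hr.le j)
  refine ContinuousLinearMap.opNorm_le_bound _ (norm_nonneg _) fun x => ?_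
  rw [mul_pow_apply]
  exact norm_mul_le _ _

private theorem one_add_pow_apply (b : B) (z : ℂ) (n : ℕ) (x : B) :
    ((1 + z • ContinuousLinearMap.mul ℂ B b) ^ n) x = (1 + z • b) ^ n * x := by
  induction n with
  | zero => simp
  | succ n ih =>
    rw [pow_succ', pow_succ', ContinuousLinearMap.mul_apply, ih,
      ContinuousLinearMap.add_apply, ContinuousLinearMap.smul_apply,
      ContinuousLinearMap.mul_apply', ContinuousLinearMap.one_apply]
    rw [add_mul, one_mul, add_mul, smul_mul_assoc, smul_mul_assoc, mul_assoc]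

end

/-- the angle of a near return -/
private noncomputable def ang (K₁ Nf : ℕ) (x : (_ : ℕ) × (ℕ × ℕ)) : ℝ :=
  2 * Real.pi * x.1 / Nf + x.2.2 / (K₁ * x.2.1)

private theorem half_count {X : Type*} [NormedAddCommGroup X] [NormedSpace ℂ X] {T : X →L[ℂ] X}
    {v : X} {ε c K C' : ℝ} (hK : 0 < K)
    (hcnt : ∀ S : ℕ → Set ℝ, (∀ n, MeasurableSet (S n)) →
      (∀ n, ∀ t ∈ S n, ∃ t' ∈ Nr T v ε n, n * |t - t'| ≤ c) →
      ∀ N : ℕ, ∑ n ∈ Finset.range N, n * volume.real (S n ∩ Ioc 0 (2 * Real.pi)) ≤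
          K * (1 + Real.log (ES (fun i => ‖T ^ i‖) N)))
    (hlog : ∀ N : ℕ, Real.log (ES (fun i => ‖T ^ i‖) N) ≤ C' + 2 * 1 * N)
    {M K₁ R Nf : ℕ} (hK₁ : 1 ≤ K₁) (hNf : 1 ≤ Nf) (hR : Nf ≤ R) {c' : ℝ} (hc0 : 0 < c')
    (hc1 : c' ≤ 1) (hcc : c' ≤ c) (hcK : c' ≤ 1 / K₁) (F : ℕ → Finset (ℕ × ℕ))
    (hF : ∀ w < Nf - 1, ∀ q ∈ F w, R ≤ 2 * q.1 ∧ q.1 ≤ M * R ∧
        (q.2 : ℝ) / (K₁ * q.1) ≤ 2 * Real.pi / Nf ∧
        2 * Real.pi * w / Nf + q.2 / (K₁ * q.1) ∈ Nr T v ε q.1)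
    (p : ℕ → Prop) [DecidablePred p] (hp : ∀ w w', p w → p w' → w < w' → w + 2 ≤ w') :
    c' * (∑ w ∈ (Finset.range (Nf - 1)).filter p, ((F w).card : ℝ)) ≤
      K * (1 + (C' + 2 * 1 * (M * R + 1 : ℕ))) := by
  classical
  set P : Finset ((_ : ℕ) × (ℕ × ℕ)) := ((Finset.range (Nf - 1)).filter p).sigma F with hP
  have hcard : ∑ w ∈ (Finset.range (Nf - 1)).filter p, ((F w).card : ℝ) = P.card := by
    rw [hP, Finset.card_sigma]
    push_cast
    rfl
  have hmem : ∀ x ∈ P, x.1 < Nf - 1 ∧ p x.1 ∧ x.2 ∈ F x.1 := by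
    intro x hx
    rw [hP, Finset.mem_sigma, Finset.mem_filter, Finset.mem_range] at hx
    exact ⟨hx.1.1, hx.1.2, hx.2⟩
  set Q : ℕ → Finset ((_ : ℕ) × (ℕ × ℕ)) := fun n => P.filter (fun x => x.2.1 = n) with hQ
  set S : ℕ → Set ℝ := fun n => ⋃ x ∈ Q n, Ioc (ang K₁ Nf x) (ang K₁ Nf x + c' / n) with hS
  have hpi := Real.pi_gt_three
  have hNf0 : (0 : ℝ) < Nf := by exact_mod_cast hNf
  have hK0 : (0 : ℝ) < K₁ := by exact_mod_cast hK₁
  have hSm : ∀ n, MeasurableSet (S n) := fun n =>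
    Finset.measurableSet_biUnion _ fun x _ => measurableSet_Ioc
  -- elements of `Q n`
  have hQm : ∀ n, ∀ x ∈ Q n, 0 < n ∧ (Nf : ℝ) ≤ 2 * n ∧ x.1 < Nf - 1 ∧ p x.1 ∧ x.2.1 = n ∧
      (x.2.2 : ℝ) / (K₁ * n) ≤ 2 * Real.pi / Nf ∧ ang K₁ Nf x ∈ Nr T v ε n := by
    intro n x hx
    rw [hQ, Finset.mem_filter] at hx
    obtain ⟨h1, h2, h3⟩ := hmem x hx.1
    obtain ⟨h4, -, h6, h7⟩ := hF x.1 h1 x.2 h3
    rw [hx.2] at h4 h6 h7
    refine ⟨by omega, ?_, h1, h2, hx.2, h6, ?_⟩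
    · have : Nf ≤ 2 * n := by omega
      exact_mod_cast this
    · unfold ang
      rw [hx.2]
      exact h7
  have hnear : ∀ n, ∀ t ∈ S n, ∃ t' ∈ Nr T v ε n, n * |t - t'| ≤ c := by
    intro n t ht
    rw [hS, mem_iUnion₂] at ht
    obtain ⟨x, hx, ht1, ht2⟩ := ht
    obtain ⟨h0, -, -, -, -, -, h7⟩ := hQm n x hx
    have hn : (0 : ℝ) < n := by exact_mod_cast h0
    refine ⟨_, h7, ?_⟩
    rw [abs_of_pos (by linarith)]
    have h8 : t - ang K₁ Nf x ≤ c' / n := by linarith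
    calc (n : ℝ) * (t - ang K₁ Nf x) ≤ n * (c' / n) := mul_le_mul_of_nonneg_left h8 hn.le
      _ = c' := by field_simp
      _ ≤ c := hcc
  have hvol : ∀ n : ℕ, (n : ℝ) * volume.real (S n ∩ Ioc 0 (2 * Real.pi)) = c' * (Q n).card := by
    intro n
    rcases (Q n).eq_empty_or_nonempty with h0 | ⟨x0, hx0⟩
    · have : S n = ∅ := by
        rw [hS]
        simp only [h0, Finset.notMem_empty, iUnion_of_empty, iUnion_empty]
      rw [this, h0, empty_inter, measureReal_empty, Finset.card_empty]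
      simp
    obtain ⟨hn0, hn2, -, -, -, -, -⟩ := hQm n x0 hx0
    have hn : (0 : ℝ) < n := by exact_mod_cast hn0
    have hd0 : 0 ≤ c' / n := div_nonneg hc0.le hn.le
    have hstep : c' / n ≤ 2 * Real.pi / Nf := by
      rw [div_le_div_iff₀ hn hNf0]
      nlinarith
    rw [vol_sep (Q n) (ang K₁ Nf) hd0 ?_ ?_ ?_]
    · field_simp
    · -- separation
      have key : ∀ x ∈ Q n, ∀ y ∈ Q n, x.1 < y.1 → c' / n ≤ |ang K₁ Nf x - ang K₁ Nf y| := by
        intro x hx y hy hxy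
        obtain ⟨-, -, -, hpx, hx1, hx2, -⟩ := hQm n x hx
        obtain ⟨-, -, -, hpy, hy1, -, -⟩ := hQm n y hy
        have h2 : ((x.1 : ℝ)) + 2 ≤ y.1 := by exact_mod_cast hp _ _ hpx hpy hxy
        rw [abs_sub_comm]
        refine le_trans ?_ (le_abs_self _)
        unfold ang
        rw [hx1, hy1]
        have h3 : (0 : ℝ) ≤ (y.2.2 : ℝ) / (K₁ * n) := by positivity
        have h4 : 2 * Real.pi * ((x.1 : ℝ) + 2) / Nf ≤ 2 * Real.pi * y.1 / Nf := by
          apply div_le_div_of_nonneg_right _ hNf0.le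
          exact mul_le_mul_of_nonneg_left h2 (by linarith)
        have h5 : 2 * Real.pi * ((x.1 : ℝ) + 2) / Nf =
            2 * Real.pi * x.1 / Nf + 2 * Real.pi / Nf + 2 * Real.pi / Nf := by
          field_simp
          ring
        rw [h5] at h4
        linarith
      intro x hx y hy hxy
      rcases lt_trichotomy x.1 y.1 with h | h | h
      · exact key x hx y hy h
      · obtain ⟨-, -, -, -, hx1, -, -⟩ := hQm n x hx
        obtain ⟨-, -, -, -, hy1, -, -⟩ := hQm n y hy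
        have hne : x.2.2 ≠ y.2.2 := by
          intro h2
          apply hxy
          obtain ⟨x1, x2, x3⟩ := x
          obtain ⟨y1, y2, y3⟩ := y
          simp only at h h2 hx1 hy1
          subst h h2 hx1 hy1
          rfl
        unfold ang
        rw [hx1, hy1, h, add_sub_add_left_eq_sub, ← sub_div, abs_div]
        have h3 : (1 : ℝ) ≤ |(x.2.2 : ℝ) - y.2.2| := by
          have h4 : (1 : ℤ) ≤ |(x.2.2 : ℤ) - y.2.2| := by
            apply Int.one_le_abs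
            omega
          exact_mod_cast h4
        rw [abs_of_pos (by positivity : (0 : ℝ) < K₁ * n)]
        calc c' / n ≤ (1 / K₁) / n := div_le_div_of_nonneg_right hcK hn.le
          _ = 1 / (K₁ * n) := by rw [div_div]
          _ ≤ _ := div_le_div_of_nonneg_right h3 (by positivity)
      · rw [abs_sub_comm]
        exact key y hy x hx h
    · intro x hx
      unfold ang
      positivity
    · intro x hx
      obtain ⟨-, -, hx0, -, hx1, hx2, -⟩ := hQm n x hx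
      unfold ang
      rw [hx1]
      have h2 : (x.1 : ℝ) + 2 ≤ Nf := by
        have : x.1 + 2 ≤ Nf := by omega
        exact_mod_cast this
      have h4 : 2 * Real.pi * ((x.1 : ℝ) + 2) / Nf ≤ 2 * Real.pi := by
        rw [div_le_iff₀ hNf0]
        exact mul_le_mul_of_nonneg_left h2 (by linarith)
      have h5 : 2 * Real.pi * ((x.1 : ℝ) + 2) / Nf =
          2 * Real.pi * x.1 / Nf + 2 * Real.pi / Nf + 2 * Real.pi / Nf := by
        field_simp
        ring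
      rw [h5] at h4
      linarith
  have h1 := hcnt S hSm hnear (M * R + 1)
  rw [Finset.sum_congr rfl fun n _ => hvol n, ← Finset.mul_sum] at h1
  have h2 : ∑ n ∈ Finset.range (M * R + 1), ((Q n).card : ℝ) = P.card := by
    have := Finset.card_eq_sum_card_fiberwise (f := fun x : (_ : ℕ) × (ℕ × ℕ) => x.2.1) (s := P)
      (t := Finset.range (M * R + 1)) (fun x hx => by
        obtain ⟨h1, -, h3⟩ := hmem x hx
        obtain ⟨-, h5, -, -⟩ := hF x.1 h1 x.2 h3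
        rw [Finset.coe_range, Set.mem_Iio]
        exact Nat.lt_succ_of_le h5)
    rw [this]
    push_cast
    rfl
  rw [h2] at h1
  rw [hcard]
  refine h1.trans (mul_le_mul_of_nonneg_left ?_ hK.le)
  have h3 := hlog (M * R + 1)
  linarith

theorem count_fan {B : Type*} [NormedCommRing B] [NormedAlgebra ℂ B] [CompleteSpace B] {b : B}
    (h : QNb b) (M : ℕ) (hM : 1 ≤ M) (hb : b ^ (M + 1) ≠ 0) :
    ∃ ε : ℝ, 0 < ε ∧ ∀ K₁ : ℕ, 1 ≤ K₁ → ∃ C : ℝ, ∀ R Nf : ℕ, 1 ≤ Nf → Nf ≤ R →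
      ∀ F : ℕ → Finset (ℕ × ℕ),
      (∀ w < Nf - 1, ∀ q ∈ F w, R ≤ 2 * q.1 ∧ q.1 ≤ M * R ∧
        (q.2 : ℝ) / (K₁ * q.1) ≤ 2 * Real.pi / Nf ∧
        ∃ l : ℂ, ‖l‖ = 1 ∧ ‖(1 + Complex.exp (((2 * Real.pi * w / Nf + q.2 / (K₁ * q.1) : ℝ) : ℂ) *
          Complex.I) • b) ^ q.1 * b ^ M - l • b ^ M‖ < ε) →
      ((∑ w ∈ Finset.range (Nf - 1), (F w).card : ℕ) : ℝ) ≤ C * R := by
  have hv : (ContinuousLinearMap.mul ℂ B b) (b ^ M) ≠ 0 := by
    rw [ContinuousLinearMap.mul_apply', ← pow_succ']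
    exact hb
  have hN : Nontrivial B := ⟨⟨b ^ (M + 1), 0, hb⟩⟩
  obtain ⟨ε, hε, c, hc, K, hK, hcnt⟩ := count_norm (mul_QN h) hv
  obtain ⟨C', hC'⟩ := log_ES_small (mul_QN h) one_pos
  refine ⟨ε, hε, fun K₁ hK₁ => ?_⟩
  have hK0 : (0 : ℝ) < K₁ := by exact_mod_cast hK₁
  set c' : ℝ := min (min c (1 / K₁)) 1 with hc'
  have hc0 : 0 < c' := lt_min (lt_min hc (by positivity)) one_pos
  refine ⟨2 / c' * (K * (3 + |C'| + 2 * M)), fun R Nf hNf hR F hF => ?_⟩
  have hF' : ∀ w < Nf - 1, ∀ q ∈ F w, R ≤ 2 * q.1 ∧ q.1 ≤ M * R ∧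
        (q.2 : ℝ) / (K₁ * q.1) ≤ 2 * Real.pi / Nf ∧
        2 * Real.pi * w / Nf + q.2 / (K₁ * q.1) ∈ Nr (ContinuousLinearMap.mul ℂ B b)
          (b ^ M) ε q.1 := by
    intro w hw q hq
    obtain ⟨h1, h2, h3, l, hl, h4⟩ := hF w hw q hq
    refine ⟨h1, h2, h3, l, hl, ?_⟩
    rw [one_add_pow_apply]
    exact h4
  have hmain := fun (p : ℕ → Prop) (hd : DecidablePred p)
    (hp : ∀ w w', p w → p w' → w < w' → w + 2 ≤ w') =>
    half_count hK hcnt hC' hK₁ hNf hR hc0 (min_le_right _ _)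
      ((min_le_left _ _).trans (min_le_left _ _)) ((min_le_left _ _).trans (min_le_right _ _))
      F hF' p hp
  have h1 := hmain (fun w => w % 2 = 0) inferInstance (fun w w' h1 h2 h3 => by omega)
  have h2 := hmain (fun w => ¬ w % 2 = 0) inferInstance (fun w w' h1 h2 h3 => by omega)
  have h3 : ((∑ w ∈ Finset.range (Nf - 1), (F w).card : ℕ) : ℝ) =
      ∑ w ∈ (Finset.range (Nf - 1)).filter (fun w => w % 2 = 0), ((F w).card : ℝ) +
      ∑ w ∈ (Finset.range (Nf - 1)).filter (fun w => ¬ w % 2 = 0), ((F w).card : ℝ) := by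
    rw [Finset.sum_filter_add_sum_filter_not]
    push_cast
    rfl
  have hR1 : (1 : ℝ) ≤ R := by
    have : 1 ≤ R := by omega
    exact_mod_cast this
  have h4 : K * (1 + (C' + 2 * 1 * (M * R + 1 : ℕ))) ≤ K * ((3 + |C'| + 2 * M) * R) := by
    refine mul_le_mul_of_nonneg_left ?_ hK.le
    push_cast
    have h5 := le_abs_self C'
    have h6 := abs_nonneg C'
    have h7 : |C'| ≤ |C'| * R := by nlinarith
    nlinarith
  rw [h3, div_mul_eq_mul_div, div_mul_eq_mul_div, le_div_iff₀ hc0]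
  nlinarith

end Pool.Agent.Work.MP_0d53be_an.Full
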