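import Pool.Agent.Work.MP_0d53be_an.Full.X.Vn
import Pool.Agent.Work.MP_0d53be_an.Full.X.Turn

/-!
# C/Fan: fans of near returns

`ang Nf w = 2π w/Nf`. `fanSet b ε k K₁ Nf w`: the points `(K₁ n, m)` with `2^(k-1) < n ≤ 2^k` for
which some `θ ∈ Vn b ε n` satisfies `ang Nf w ≤ θ < ang Nf (w+1)` and `m = ⌊K₁ n (θ - ang Nf w)⌋`.
`sums F j`: the `2^j`-fold sum set (`sums F 0 = F`, `sums F (j+1) = sums F j + sums F j`).

* `fan_finite`: `0 ≤ K₁ n ≤ K₁ 2^k`, `0 ≤ m ≤ K₁ 2^k * 2π`: bounded set of lattice points.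
* `fan_mem`: unfolding (`Set.Finite.mem_toFinset`).
* `sums_decomp`: a point of `sums F j` is a sum of `2^j` points of `F` (induction).
* `fan_bounds`: for `z ∈ sums F j`: `K₁ ∣ z.1`, `K₁ 2^j 2^(k-1) < z.1 ≤ K₁ 2^j 2^k`
  (for `k ≥ 1`), `0 ≤ z.2`, and `z.2 Nf ≤ 2π z.1` (every point `(K₁n, m)` has
  `0 ≤ m ≤ K₁ n (θ - ang) ≤ K₁ n 2π/Nf`).
* `fan_near`: let `Mb : ℕ`, `ε̄ > 0`. There are `ε > 0`, `K₁ ≥ 1`, `c₀ ≥ 1` such that for all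
  `k ≥ 1`, all `Nf` with `c₀² 2^k ≤ Nf²`, all `w₁, …, w_M` (`1 ≤ M ≤ Mb`) and all
  `z_i ∈ fanSet b ε k K₁ Nf w_i` and every `y : Ex` with
  `‖y - ∑_i Ew (ang Nf w_i) (toC z_i/K₁)‖ ≤ 1/c₀`: `NR b M ε̄ y`.
  Proof: `near_all` gives `ε₁, κ₁`; take `ε = ε₁`. For `z_i = (K₁ n, m)` with angle
  `θ = ang Nf w_i + φ`, `0 ≤ φ ≤ 2π/Nf`: `NR b 1 ε₁ (Ew θ n)` (`NR_of_Vn`), and by `Ew_near` with
  `a = m/K₁`: `‖Ew θ n - Ew (ang) (n + i m/K₁)‖ ≤ n φ² + |n φ - m/K₁| ≤ 2^k 4π²/Nf² + 1/K₁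
  ≤ 40/c₀² + 1/K₁`; `toC z_i/K₁ = n + i m/K₁`. So
  `‖y - ∑ Ew θ_i n_i‖ ≤ 1/c₀ + Mb (40/c₀² + 1/K₁) ≤ κ₁` if `c₀, K₁` are large.
-/

set_option autoImplicit false

namespace Pool.Agent.Work.MP_0d53be_an.Full

open scoped Pointwise

/-- The angle with index `w`. -/
noncomputable def ang (Nf w : ℕ) : ℝ := 2 * Real.pi * w / Nf

variable {B : Type*} [NormedCommRing B] [NormedAlgebra ℂ B] [CompleteSpace B]

/-- The fan of near returns with index `w`, as a set. -/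
def fanSet (b : B) (ε : ℝ) (k K₁ Nf w : ℕ) : Set G :=
  {z | ∃ n : ℕ, 2 ^ (k - 1) < n ∧ n ≤ 2 ^ k ∧ z.1 = K₁ * n ∧ ∃ θ ∈ Vn b ε n,
    ang Nf w ≤ θ ∧ θ < ang Nf (w + 1) ∧ z.2 = ⌊K₁ * n * (θ - ang Nf w)⌋}

private theorem ang_step (Nf w : ℕ) : ang Nf (w + 1) - ang Nf w = 2 * Real.pi / Nf := by
  unfold ang
  push_cast
  ring

private theorem ang_step_le (Nf w : ℕ) : ang Nf (w + 1) - ang Nf w ≤ 2 * Real.pi := by
  rw [ang_step]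
  rcases Nat.eq_zero_or_pos Nf with h | h
  · rw [h, Nat.cast_zero, div_zero]
    positivity
  · have h1 : (1 : ℝ) ≤ Nf := by exact_mod_cast h
    exact div_le_self (by positivity) h1

omit [CompleteSpace B] in
private theorem fanSet_bd {b : B} {ε : ℝ} {k K₁ Nf w : ℕ} {z : G} (hz : z ∈ fanSet b ε k K₁ Nf w) :
    ∃ n : ℕ, 2 ^ (k - 1) < n ∧ n ≤ 2 ^ k ∧ z.1 = K₁ * n ∧ ∃ θ ∈ Vn b ε n,
      0 ≤ θ - ang Nf w ∧ θ - ang Nf w ≤ 2 * Real.pi / Nf ∧ 0 ≤ z.2 ∧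
        (z.2 : ℝ) ≤ K₁ * n * (θ - ang Nf w) ∧ K₁ * n * (θ - ang Nf w) ≤ z.2 + 1 := by
  obtain ⟨n, h1, h2, h3, θ, hθ, h4, h5, h6⟩ := hz
  have hstep := ang_step Nf w
  have h7 : 0 ≤ θ - ang Nf w := by linarith
  have h8 : (0 : ℝ) ≤ K₁ * n * (θ - ang Nf w) := by positivity
  refine ⟨n, h1, h2, h3, θ, hθ, h7, by linarith, ?_, ?_, ?_⟩
  · rw [h6]
    exact Int.floor_nonneg.2 h8
  · rw [h6]
    exact Int.floor_le _
  · rw [h6]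
    exact (Int.lt_floor_add_one _).le

theorem fan_finite (b : B) (ε : ℝ) (k K₁ Nf w : ℕ) : (fanSet b ε k K₁ Nf w).Finite := by
  refine ((Finset.Icc (0 : ℤ) (K₁ * 2 ^ k) ×ˢ
    Finset.Icc (0 : ℤ) ⌊((K₁ : ℝ) * 2 ^ k * (2 * Real.pi))⌋).finite_toSet).subset ?_
  intro z hz
  have hz' := hz
  obtain ⟨n, h1, h2, h3, θ, hθ, h4, h5, h6⟩ := hz
  obtain ⟨-, -, -, -, -, -, -, -, h7, -⟩ := fanSet_bd hz'
  have hstep := ang_step_le Nf w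
  have hn : (n : ℝ) ≤ 2 ^ k := by exact_mod_cast h2
  rw [Finset.mem_coe, Finset.mem_product, Finset.mem_Icc, Finset.mem_Icc]
  refine ⟨⟨?_, ?_⟩, h7, ?_⟩
  · rw [h3]
    positivity
  · rw [h3]
    have h8 : (n : ℤ) ≤ 2 ^ k := by exact_mod_cast h2
    exact mul_le_mul_of_nonneg_left h8 (by positivity)
  · rw [h6]
    refine Int.floor_le_floor ?_
    have h8 : (K₁ : ℝ) * n ≤ K₁ * 2 ^ k := mul_le_mul_of_nonneg_left hn (by positivity)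
    exact mul_le_mul h8 (by linarith) (by linarith) (by positivity)

/-- The fan. -/
noncomputable def fan (b : B) (ε : ℝ) (k K₁ Nf w : ℕ) : Finset G :=
  (fan_finite b ε k K₁ Nf w).toFinset

/-- The `2^j`-fold sum set. -/
noncomputable def sums (F : Finset G) : ℕ → Finset G
  | 0 => F
  | j + 1 => sums F j + sums F j

theorem sums_decomp {F : Finset G} {j : ℕ} {z : G} (hz : z ∈ sums F j) :
    ∃ x : Fin (2 ^ j) → G, (∀ i, x i ∈ F) ∧ ∑ i, x i = z := by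
  induction j generalizing z with
  | zero =>
    refine ⟨fun _ => z, fun _ => hz, ?_⟩
    simp
  | succ j ih =>
    obtain ⟨a, ha, c, hc, rfl⟩ := Finset.mem_add.1 hz
    obtain ⟨x, hx, hxs⟩ := ih ha
    obtain ⟨y, hy, hys⟩ := ih hc
    have h1 : 2 ^ (j + 1) = 2 ^ j + 2 ^ j := by ring
    rw [h1]
    refine ⟨Fin.append x y, fun i => ?_, ?_⟩
    · refine Fin.addCases (fun i => ?_) (fun i => ?_) i
      · rw [Fin.append_left]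
        exact hx i
      · rw [Fin.append_right]
        exact hy i
    · rw [Fin.sum_univ_add]
      simp only [Fin.append_left, Fin.append_right]
      rw [hxs, hys]

theorem fan_bounds {b : B} {ε : ℝ} {k K₁ Nf w j : ℕ} (hk : 1 ≤ k) (hK : 1 ≤ K₁) (hN : 1 ≤ Nf)
    {z : G} (hz : z ∈ sums (fan b ε k K₁ Nf w) j) :
    (∃ N : ℕ, z.1 = K₁ * N ∧ 2 ^ j * 2 ^ (k - 1) < N ∧ N ≤ 2 ^ j * 2 ^ k) ∧ 0 ≤ z.2 ∧
      (z.2 : ℝ) * Nf ≤ 2 * Real.pi * z.1 := by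
  induction j generalizing z with
  | zero =>
    have hz1 : z ∈ fanSet b ε k K₁ Nf w := (fan_finite b ε k K₁ Nf w).mem_toFinset.1 hz
    obtain ⟨n, h1, h2, h3, θ, hθ, h4, h5, h6, h7, h8⟩ := fanSet_bd hz1
    refine ⟨⟨n, h3, by rwa [pow_zero, one_mul], by rwa [pow_zero, one_mul]⟩, h6, ?_⟩
    have hNf : (0 : ℝ) < Nf := by exact_mod_cast hN
    have h9 : (z.1 : ℝ) = K₁ * n := by
      rw [h3]
      push_cast
      ring
    rw [h9]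
    have h10 : (θ - ang Nf w) * Nf ≤ 2 * Real.pi := by
      rwa [le_div_iff₀ hNf] at h5
    calc (z.2 : ℝ) * Nf ≤ K₁ * n * (θ - ang Nf w) * Nf := mul_le_mul_of_nonneg_right h7 hNf.le
      _ = K₁ * n * ((θ - ang Nf w) * Nf) := by ring
      _ ≤ K₁ * n * (2 * Real.pi) := mul_le_mul_of_nonneg_left h10 (by positivity)
      _ = 2 * Real.pi * (K₁ * n) := by ring
  | succ j ih =>
    obtain ⟨a, ha, c, hc, rfl⟩ := Finset.mem_add.1 hz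
    obtain ⟨⟨N1, h1, h2, h3⟩, h4, h5⟩ := ih ha
    obtain ⟨⟨N2, g1, g2, g3⟩, g4, g5⟩ := ih hc
    refine ⟨⟨N1 + N2, ?_, ?_, ?_⟩, ?_, ?_⟩
    · rw [Prod.fst_add, h1, g1]
      push_cast
      ring
    · have : 2 ^ (j + 1) * 2 ^ (k - 1) = 2 ^ j * 2 ^ (k - 1) + 2 ^ j * 2 ^ (k - 1) := by ring
      omega
    · have : 2 ^ (j + 1) * 2 ^ k = 2 ^ j * 2 ^ k + 2 ^ j * 2 ^ k := by ring
      omega
    · rw [Prod.snd_add]
      omega
    · rw [Prod.snd_add, Prod.fst_add]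
      push_cast
      linarith

theorem fan_near {b : B} (h : QNb b) (Mb : ℕ) {εb : ℝ} (hε : 0 < εb) :
    ∃ ε : ℝ, 0 < ε ∧ ∃ K₁ : ℕ, 1 ≤ K₁ ∧ ∃ c₀ : ℕ, 1 ≤ c₀ ∧ ∀ k Nf : ℕ, 1 ≤ k →
      c₀ ^ 2 * 2 ^ k ≤ Nf ^ 2 → ∀ M : ℕ, 1 ≤ M → M ≤ Mb → ∀ (w : Fin M → ℕ) (z : Fin M → G),
      (∀ i, z i ∈ fan b ε k K₁ Nf (w i)) → ∀ y : Ex,
      ‖y - ∑ i, Ew (ang Nf (w i)) (toC (z i) / K₁)‖ ≤ 1 / c₀ → NR b M εb y := by
  obtain ⟨ε₁, hε₁, κ₁, hκ₁, H⟩ := near_all h Mb hε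
  obtain ⟨K₁, hK₁⟩ := exists_nat_gt (2 * Mb / κ₁)
  obtain ⟨c₀, hc₀⟩ := exists_nat_gt (2 * (1 + 40 * Mb) / κ₁)
  have hK0 : (0 : ℝ) < K₁ := lt_of_le_of_lt (by positivity) hK₁
  have hc0 : (0 : ℝ) < c₀ := lt_of_le_of_lt (by positivity) hc₀
  have hK1 : 1 ≤ K₁ := by exact_mod_cast hK0
  have hc1 : 1 ≤ c₀ := by exact_mod_cast hc0
  have hc1' : (1 : ℝ) ≤ c₀ := by exact_mod_cast hc1
  rw [div_lt_iff₀ hκ₁] at hK₁ hc₀
  refine ⟨ε₁, hε₁, K₁, hK1, c₀, hc1, fun k Nf hk hNf M hM1 hM w z hz y hy => ?_⟩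
  have hNf1 : (c₀ : ℝ) ^ 2 * 2 ^ k ≤ (Nf : ℝ) ^ 2 := by exact_mod_cast hNf
  have hNf0 : (0 : ℝ) < Nf := by
    rcases Nat.eq_zero_or_pos Nf with h0 | h0
    · rw [h0] at hNf1
      have : (0 : ℝ) < (c₀ : ℝ) ^ 2 * 2 ^ k := by positivity
      norm_num at hNf1
      linarith
    · exact_mod_cast h0
  have hz' : ∀ i, ∃ x : Ex, NR b 1 ε₁ x ∧
      ‖Ew (ang Nf (w i)) (toC (z i) / K₁) - x‖ ≤ 40 / c₀ + 1 / K₁ := by
    intro i
    obtain ⟨n, h1, h2, h3, θ, hθ, h4, h5, h6, h7, h8⟩ :=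
      fanSet_bd ((fan_finite b ε₁ k K₁ Nf (w i)).mem_toFinset.1 (hz i))
    refine ⟨Ew θ n, NR_of_Vn h hθ, ?_⟩
    have h9 := Ew_near (ang Nf (w i)) (θ - ang Nf (w i)) n ((z i).2 / K₁)
    rw [add_sub_cancel, Complex.ofReal_natCast] at h9
    have h10 : ((n : ℂ) + (((z i).2 / K₁ : ℝ) : ℂ) * Complex.I) = toC (z i) / K₁ := by
      have hKc : (K₁ : ℂ) ≠ 0 := by exact_mod_cast hK0.ne'
      rw [eq_div_iff hKc]
      have h11 : toC (z i) = (((z i).1 : ℝ) : ℂ) + (((z i).2 : ℝ) : ℂ) * Complex.I := by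
        apply Complex.ext <;> simp [toC]
      rw [h11, h3]
      push_cast
      field_simp
    rw [h10] at h9
    rw [norm_sub_rev]
    refine h9.trans (add_le_add ?_ ?_)
    · rw [abs_of_nonneg (Nat.cast_nonneg n)]
      have hn : (n : ℝ) ≤ 2 ^ k := by exact_mod_cast h2
      have h11 : (θ - ang Nf (w i)) ^ 2 ≤ (2 * Real.pi / Nf) ^ 2 := pow_le_pow_left₀ h4 h5 2
      have h12 : (n : ℝ) * (θ - ang Nf (w i)) ^ 2 ≤ 2 ^ k * (2 * Real.pi / Nf) ^ 2 :=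
        mul_le_mul hn h11 (sq_nonneg _) (by positivity)
      refine h12.trans ?_
      rw [div_pow, mul_div_assoc', div_le_div_iff₀ (by positivity) hc0]
      have hpi : (2 * Real.pi) ^ 2 ≤ 40 := by
        have := Real.pi_lt_d2
        have := Real.pi_pos
        nlinarith
      have h14 : (2 : ℝ) ^ k * (2 * Real.pi) ^ 2 * (c₀ : ℝ) ≤ 2 ^ k * 40 * (c₀ : ℝ) ^ 2 := by
        refine mul_le_mul (mul_le_mul_of_nonneg_left hpi (by positivity)) ?_ hc0.le (by positivity)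
        nlinarith
      nlinarith
    · have h13 : (n : ℝ) * (θ - ang Nf (w i)) - (z i).2 / K₁ =
          (K₁ * n * (θ - ang Nf (w i)) - (z i).2) / K₁ := by
        field_simp
      rw [h13, abs_div, abs_of_pos hK0]
      refine div_le_div_of_nonneg_right ?_ hK0.le
      rw [abs_le]
      constructor <;> linarith
  choose x hx1 hx2 using hz'
  refine H M hM1 hM x hx1 y ?_
  have h1 : y - ∑ i, x i = (y - ∑ i, Ew (ang Nf (w i)) (toC (z i) / K₁)) +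
      ∑ i, (Ew (ang Nf (w i)) (toC (z i) / K₁) - x i) := by
    rw [Finset.sum_sub_distrib]
    abel
  rw [h1]
  have h2 : ‖∑ i, (Ew (ang Nf (w i)) (toC (z i) / K₁) - x i)‖ ≤ Mb * (40 / c₀ + 1 / K₁) := by
    refine (norm_sum_le _ _).trans ((Finset.sum_le_card_nsmul _ _ _ fun i _ => hx2 i).trans ?_)
    rw [Finset.card_univ, Fintype.card_fin, nsmul_eq_mul]
    have hM' : (M : ℝ) ≤ Mb := by exact_mod_cast hM
    exact mul_le_mul_of_nonneg_right hM' (by positivity)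
  refine (norm_add_le _ _).trans ((add_le_add hy h2).trans ?_)
  have h3 : (Mb : ℝ) * (1 / K₁) ≤ κ₁ / 2 := by
    rw [mul_one_div, div_le_iff₀ hK0]
    linarith
  have h4 : 1 / (c₀ : ℝ) + Mb * (40 / c₀) ≤ κ₁ / 2 := by
    have : 1 / (c₀ : ℝ) + Mb * (40 / c₀) = (1 + 40 * Mb) / c₀ := by
      field_simp
    rw [this, div_le_iff₀ hc0]
    linarith
  linarith

end Pool.Agent.Work.MP_0d53be_an.Full
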