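import Pool.Agent.Work.MP_0d53be_an.Full.C.Fan

/-!
# C/Good: many good fans

Let `ε` real, `K₁, c₀ ≥ 1`, `C` real, `m : ℕ`. There is `k₀` such that for `k ≥ k₀` and
`Nf = 7 H`, `H = c₀ 2^((k+1)/2)`: if
`U = (⋃_{2^(k-1) < n ≤ 2^k} Vn b ε n) ∩ (0, 2π]` has measure at least `1/k²`, and
`∑_{w < Nf - 1} card (sums (fan w) j) ≤ C 2^k` for `j ≤ m`, then there are `b₀ < 7` and a finite set
`W ⊆ [b₀ H, (b₀+1) H)` with `Nf ≤ k³ card W` such that for `w ∈ W`: `√(2^k) ≤ k³ card (fan w)` and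
`card (sums (fan w) j) ≤ k³ √(2^k)` for all `j ≤ m`.

Proof. `U ⊆ ⋃_{w < Nf} [ang w, ang (w+1)) ∪ {2π}`. For `w < Nf` the part
`U_w = U ∩ [ang w, ang (w+1))` is covered by the sets
`{θ : ang w + m/(K₁n) ≤ θ < ang w + (m+1)/(K₁n)}`, `(K₁ n, m) ∈ fan w` (`m = ⌊K₁n(θ - ang w)⌋`),
each of measure `1/(K₁ n) ≤ 2/2^k` (`n > 2^(k-1)`, i.e. `2n ≥ 2^k`). So
`|U_w| ≤ min (2π/Nf) (2 card (fan w)/2^k)`. Let `s = √(2^k)`; `s ≤ H ≤ 2 c₀ s`, `Nf ≤ 14 c₀ s`,
`Nf ≥ 7 s`. The `w` with `card (fan w) < s/k³` contribute at most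
`Nf * 2 s/(k³ 2^k) ≤ 28 c₀/k³ ≤ 1/(4k²)`; `w = Nf - 1` contributes at most `2π/Nf ≤ 1/(4k²)`. So the
number of `w < Nf - 1` with `card (fan w) ≥ s/k³` is at least `(1/(2k²)) Nf/(2π) ≥ Nf/(14 k²)`.
For `j ≤ m` the number of `w < Nf - 1` with `card (sums (fan w) j) > k³ s` is at most
`C 2^k/(k³ s) = C s/k³ ≤ C Nf/k³`. The remaining `w`: at least
`Nf/(14k²) - (m+1) |C| Nf/k³ ≥ Nf/(28 k²)` for large `k`. The seven blocks `[b₀H, (b₀+1)H)` cover
`[0, Nf)`; some block contains at least `Nf/(196 k²) ≥ Nf/k³` of them.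
-/

set_option autoImplicit false

namespace Pool.Agent.Work.MP_0d53be_an.Full

open MeasureTheory

variable {B : Type*} [NormedCommRing B] [NormedAlgebra ℂ B] [CompleteSpace B]

private theorem ang_mono {Nf w : ℕ} (hN : 1 ≤ Nf) :
    ang Nf (w + 1) = ang Nf w + 2 * Real.pi / Nf := by
  have hNr : (0 : ℝ) < Nf := by exact_mod_cast hN
  unfold ang
  push_cast
  field_simp

/-- the part of the union in one angular sector -/
private theorem sector_le (b : B) (ε : ℝ) {k K₁ Nf w : ℕ} (hk : 1 ≤ k) (hK : 1 ≤ K₁)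
    (hN : 1 ≤ Nf) (U : Set ℝ)
    (hU : U ⊆ ⋃ n ∈ Finset.Ioc (2 ^ (k - 1)) (2 ^ k), Vn b ε n) :
    volume.real (U ∩ Set.Ico (ang Nf w) (ang Nf (w + 1))) ≤ 2 * Real.pi / Nf ∧
    volume.real (U ∩ Set.Ico (ang Nf w) (ang Nf (w + 1))) ≤
      (fan b ε k K₁ Nf w).card * (2 / 2 ^ k) := by
  have hNr : (0 : ℝ) < Nf := by exact_mod_cast hN
  have hKr : (1 : ℝ) ≤ K₁ := by exact_mod_cast hK
  have hpi := Real.pi_pos
  constructor
  · refine (measureReal_mono Set.inter_subset_right (by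
      rw [Real.volume_Ico]
      exact ENNReal.ofReal_ne_top)).trans ?_
    rw [ang_mono hN, Real.volume_real_Ico_of_le (by
      have : 0 ≤ 2 * Real.pi / Nf := by positivity
      linarith)]
    linarith
  · have hsub : U ∩ Set.Ico (ang Nf w) (ang Nf (w + 1)) ⊆ ⋃ z ∈ fan b ε k K₁ Nf w,
        Set.Ico (ang Nf w + z.2 / z.1) (ang Nf w + (z.2 + 1) / z.1) := by
      rintro θ ⟨hθ, h1, h2⟩
      obtain ⟨n, hn, h3⟩ := Set.mem_iUnion₂.1 (hU hθ)
      rw [Finset.mem_Ioc] at hn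
      have hn0 : 0 < n := lt_of_le_of_lt (Nat.zero_le _) hn.1
      have hnr : (0 : ℝ) < n := by exact_mod_cast hn0
      have hKn : (0 : ℝ) < K₁ * n := by positivity
      rw [Set.mem_iUnion₂]
      refine ⟨((K₁ * n : ℤ), ⌊(K₁ : ℝ) * n * (θ - ang Nf w)⌋), ?_, ?_, ?_⟩
      · unfold fan
        rw [Set.Finite.mem_toFinset]
        exact ⟨n, hn.1, hn.2, rfl, θ, h3, h1, h2, rfl⟩
      · have h4 := Int.floor_le ((K₁ : ℝ) * n * (θ - ang Nf w))
        push_cast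
        have h5 : (⌊(K₁ : ℝ) * n * (θ - ang Nf w)⌋ : ℝ) / (K₁ * n) ≤ θ - ang Nf w := by
          rw [div_le_iff₀ hKn]
          linarith
        linarith
      · have h4 := Int.lt_floor_add_one ((K₁ : ℝ) * n * (θ - ang Nf w))
        push_cast
        have h5 : θ - ang Nf w < ((⌊(K₁ : ℝ) * n * (θ - ang Nf w)⌋ : ℝ) + 1) / (K₁ * n) := by
          rw [lt_div_iff₀ hKn]
          linarith
        linarith
    have hfin : volume (⋃ z ∈ fan b ε k K₁ Nf w,
        Set.Ico (ang Nf w + (z.2 : ℝ) / z.1) (ang Nf w + (z.2 + 1) / z.1)) ≠ ⊤ := by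
      refine ne_top_of_le_ne_top ?_ (measure_biUnion_finset_le _ _)
      refine ENNReal.sum_ne_top.2 fun z _ => ?_
      rw [Real.volume_Ico]
      exact ENNReal.ofReal_ne_top
    refine (measureReal_mono hsub hfin).trans ((measureReal_biUnion_finset_le _ _).trans ?_)
    rw [← nsmul_eq_mul]
    refine Finset.sum_le_card_nsmul _ _ _ fun z hz => ?_
    unfold fan at hz
    rw [Set.Finite.mem_toFinset] at hz
    obtain ⟨n, h1, -, h3, -⟩ := hz
    have hn0 : 0 < n := lt_of_le_of_lt (Nat.zero_le _) h1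
    have hnr : (0 : ℝ) < n := by exact_mod_cast hn0
    have hz1 : (z.1 : ℝ) = K₁ * n := by
      rw [h3]
      push_cast
      ring
    have h5 : (2 : ℝ) ^ k = 2 * 2 ^ (k - 1) := by
      rw [← pow_succ']
      congr 1
      omega
    have h6 : (2 : ℝ) ^ (k - 1) < n := by exact_mod_cast h1
    have h7 : (0 : ℝ) < 2 ^ k := by positivity
    have hz0 : (0 : ℝ) < z.1 := by
      rw [hz1]
      positivity
    rw [Real.volume_real_Ico_of_le (by
      have : (z.2 : ℝ) / z.1 ≤ (z.2 + 1) / z.1 := div_le_div_of_nonneg_right (by linarith) hz0.le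
      linarith)]
    have h8 : ang Nf w + ((z.2 : ℝ) + 1) / z.1 - (ang Nf w + z.2 / z.1) = 1 / z.1 := by
      ring
    rw [h8, hz1, div_le_div_iff₀ (by positivity) h7]
    nlinarith

private theorem sector_cover {Nf : ℕ} (hN : 1 ≤ Nf) (U : Set ℝ)
    (hU : U ⊆ Set.Ioc 0 (2 * Real.pi)) :
    volume.real U ≤ ∑ w ∈ Finset.range Nf,
      volume.real (U ∩ Set.Ico (ang Nf w) (ang Nf (w + 1))) := by
  have hNr : (0 : ℝ) < Nf := by exact_mod_cast hN
  have hpi := Real.pi_pos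
  have hsub : U ⊆ (⋃ w ∈ Finset.range Nf, U ∩ Set.Ico (ang Nf w) (ang Nf (w + 1))) ∪
      {2 * Real.pi} := by
    intro θ hθ
    obtain ⟨h1, h2⟩ := hU hθ
    rcases h2.eq_or_lt with h3 | h3
    · right
      exact h3
    · left
      rw [Set.mem_iUnion₂]
      have h4 : 0 ≤ θ * Nf / (2 * Real.pi) := by positivity
      refine ⟨⌊θ * Nf / (2 * Real.pi)⌋₊, ?_, hθ, ?_, ?_⟩
      · rw [Finset.mem_range, Nat.floor_lt h4, div_lt_iff₀ (by positivity)]
        nlinarith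
      · have h5 := Nat.floor_le h4
        rw [le_div_iff₀ (by positivity)] at h5
        unfold ang
        rw [div_le_iff₀ hNr]
        linarith
      · have h5 := Nat.lt_floor_add_one (θ * Nf / (2 * Real.pi))
        rw [div_lt_iff₀ (by positivity)] at h5
        unfold ang
        rw [lt_div_iff₀ hNr]
        push_cast
        linarith
  have hfin : ∀ V : Set ℝ, V ⊆ U → volume V ≠ ⊤ := by
    intro V hV
    refine ne_top_of_le_ne_top ?_ (measure_mono (hV.trans hU))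
    rw [Real.volume_Ioc]
    exact ENNReal.ofReal_ne_top
  have hfin2 : volume ((⋃ w ∈ Finset.range Nf, U ∩ Set.Ico (ang Nf w) (ang Nf (w + 1))) ∪
      {2 * Real.pi}) ≠ ⊤ := by
    refine ne_top_of_le_ne_top ?_ (measure_union_le _ _)
    refine ENNReal.add_ne_top.2 ⟨hfin _ ?_, ?_⟩
    · exact Set.iUnion₂_subset fun w _ => Set.inter_subset_left
    · rw [Real.volume_singleton]
      exact ENNReal.zero_ne_top
  refine (measureReal_mono hsub hfin2).trans ((measureReal_union_le _ _).trans ?_)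
  have h0 : volume.real ({2 * Real.pi} : Set ℝ) = 0 := by
    rw [Measure.real, Real.volume_singleton]
    rfl
  rw [h0, add_zero]
  exact measureReal_biUnion_finset_le _ _

private theorem pow_ev : ∃ k₁ : ℕ, ∀ k : ℕ, k₁ ≤ k → 16 * (k : ℝ) ^ 4 ≤ 2 ^ k := by
  have h := (tendsto_pow_const_div_const_pow_of_one_lt 4 (r := (2 : ℝ)) (by norm_num)).eventually
    (gt_mem_nhds (show (0 : ℝ) < 1 / 16 by norm_num))
  obtain ⟨k₁, hk₁⟩ := Filter.eventually_atTop.1 h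
  refine ⟨k₁, fun k hk => ?_⟩
  have h1 := hk₁ k hk
  rw [div_lt_iff₀ (by positivity)] at h1
  linarith

theorem good_fans (b : B) (ε : ℝ) (K₁ c₀ m : ℕ) (hK : 1 ≤ K₁) (hc : 1 ≤ c₀) (C : ℝ) :
    ∃ k₀ : ℕ, ∀ k : ℕ, k₀ ≤ k →
      1 / (k : ℝ) ^ 2 ≤ volume.real ((⋃ n ∈ Finset.Ioc (2 ^ (k - 1)) (2 ^ k), Vn b ε n) ∩
        Set.Ioc 0 (2 * Real.pi)) →
      (∀ j ≤ m, ((∑ w ∈ Finset.range (7 * (c₀ * 2 ^ ((k + 1) / 2)) - 1),
        (sums (fan b ε k K₁ (7 * (c₀ * 2 ^ ((k + 1) / 2))) w) j).card : ℕ) : ℝ) ≤ C * 2 ^ k) →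
      ∃ b₀ < 7, ∃ W : Finset ℕ, (∀ w ∈ W, b₀ * (c₀ * 2 ^ ((k + 1) / 2)) ≤ w ∧
        w < (b₀ + 1) * (c₀ * 2 ^ ((k + 1) / 2))) ∧
        7 * (c₀ * 2 ^ ((k + 1) / 2)) ≤ k ^ 3 * W.card ∧
        ∀ w ∈ W, Real.sqrt (2 ^ k) ≤
            (k : ℝ) ^ 3 * (fan b ε k K₁ (7 * (c₀ * 2 ^ ((k + 1) / 2))) w).card ∧
          ∀ j ≤ m, ((sums (fan b ε k K₁ (7 * (c₀ * 2 ^ ((k + 1) / 2))) w) j).card : ℝ) ≤
            (k : ℝ) ^ 3 * Real.sqrt (2 ^ k) := by
  classical
  obtain ⟨k₁, hk₁⟩ := pow_ev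
  refine ⟨max k₁ (max (112 * c₀) (max 196 (28 * (m + 1) * ⌈|C|⌉₊))) + 1, ?_⟩
  intro k hk hU hS
  have hk' := (Nat.le_succ _).trans hk
  rw [max_le_iff, max_le_iff, max_le_iff] at hk'
  obtain ⟨hkk1, hkc, hk196, hkC⟩ := hk'
  have hk0 : 1 ≤ k := by omega
  have h2k := hk₁ k hkk1
  obtain ⟨Q, hQ⟩ : ∃ Q, Q = 2 ^ ((k + 1) / 2) := ⟨_, rfl⟩
  obtain ⟨H, hH⟩ : ∃ H, H = c₀ * 2 ^ ((k + 1) / 2) := ⟨_, rfl⟩
  obtain ⟨Nf, hNf⟩ : ∃ Nf, Nf = 7 * (c₀ * 2 ^ ((k + 1) / 2)) := ⟨_, rfl⟩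
  rw [← hNf] at hS ⊢
  rw [← hH]
  have hNH : Nf = 7 * H := by rw [hNf, hH]
  have hHQ : H = c₀ * Q := by rw [hH, hQ]
  have hQ1 : 1 ≤ Q := by
    rw [hQ]
    exact Nat.one_le_two_pow
  have hH1 : 1 ≤ H := by
    rw [hHQ]
    exact Nat.mul_pos hc hQ1
  have hN1 : 1 ≤ Nf := by omega
  obtain ⟨s, hs⟩ : ∃ s : ℝ, s = Real.sqrt (2 ^ k) := ⟨_, rfl⟩
  have hs2 : s ^ 2 = 2 ^ k := by
    rw [hs]
    exact Real.sq_sqrt (by positivity)
  have hs0 : 0 < s := by
    rw [hs]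
    positivity
  rw [← hs]
  have hsQ : s ≤ Q := by
    rw [hs, hQ]
    apply Real.sqrt_le_iff.2
    refine ⟨by positivity, ?_⟩
    push_cast
    rw [← pow_mul]
    exact pow_le_pow_right₀ (by norm_num) (by omega)
  have hQs : (Q : ℝ) ≤ 2 * s := by
    have h1 : (Q : ℝ) ^ 2 ≤ (2 * s) ^ 2 := by
      rw [mul_pow, hs2, hQ]
      push_cast
      rw [← pow_mul]
      calc (2 : ℝ) ^ ((k + 1) / 2 * 2) ≤ 2 ^ (k + 1) :=
            pow_le_pow_right₀ (by norm_num) (by omega)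
        _ ≤ 2 ^ 2 * 2 ^ k := by
            rw [pow_succ]
            have : (0 : ℝ) < 2 ^ k := by positivity
            linarith
    exact (pow_le_pow_iff_left₀ (by positivity) (by positivity) (by norm_num)).1 h1
  have hkr : (196 : ℝ) ≤ k := by exact_mod_cast hk196
  have hkr0 : (0 : ℝ) < k := by linarith
  have hcr : (1 : ℝ) ≤ c₀ := by exact_mod_cast hc
  have hNr : (0 : ℝ) < Nf := by exact_mod_cast hN1
  have hNc : (Nf : ℝ) = 7 * (c₀ * Q) := by
    rw [hNH, hHQ]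
    push_cast
    ring
  have hN7 : 7 * s ≤ Nf := by
    rw [hNc]
    nlinarith
  have hN14 : (Nf : ℝ) ≤ 14 * c₀ * s := by
    rw [hNc]
    nlinarith
  have hs4 : 4 * (k : ℝ) ^ 2 ≤ s := by
    have h1 : (4 * (k : ℝ) ^ 2) ^ 2 ≤ s ^ 2 := by
      rw [hs2]
      calc (4 * (k : ℝ) ^ 2) ^ 2 = 16 * (k : ℝ) ^ 4 := by ring
        _ ≤ 2 ^ k := h2k
    exact (pow_le_pow_iff_left₀ (by positivity) (by positivity) (by norm_num)).1 h1
  have hpi0 := Real.pi_pos
  have hpi1 := Real.pi_lt_d2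
  -- the rich sectors
  obtain ⟨A, hA⟩ : ∃ A : Finset ℕ, A = (Finset.range (Nf - 1)).filter fun w =>
    s ≤ (k : ℝ) ^ 3 * (fan b ε k K₁ Nf w).card := ⟨_, rfl⟩
  obtain ⟨U, hUd⟩ : ∃ U, U = (⋃ n ∈ Finset.Ioc (2 ^ (k - 1)) (2 ^ k), Vn b ε n) ∩
        Set.Ioc 0 (2 * Real.pi) := ⟨_, rfl⟩
  rw [← hUd] at hU
  have hU1 : U ⊆ ⋃ n ∈ Finset.Ioc (2 ^ (k - 1)) (2 ^ k), Vn b ε n := by
    rw [hUd]
    exact Set.inter_subset_left
  have hU2 : U ⊆ Set.Ioc 0 (2 * Real.pi) := by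
    rw [hUd]
    exact Set.inter_subset_right
  have hcov := sector_cover hN1 U hU2
  have hAlow : (1 : ℝ) / k ^ 2 ≤ A.card * (2 * Real.pi / Nf) + 28 * c₀ / k ^ 3 + 1 / s := by
    refine hU.trans (hcov.trans ?_)
    have e1 : Nf = (Nf - 1) + 1 := by omega
    have e2 : ∑ w ∈ Finset.range Nf, volume.real (U ∩ Set.Ico (ang Nf w) (ang Nf (w + 1))) =
        ∑ w ∈ Finset.range (Nf - 1), volume.real (U ∩ Set.Ico (ang Nf w) (ang Nf (w + 1))) +
        volume.real (U ∩ Set.Ico (ang Nf (Nf - 1)) (ang Nf (Nf - 1 + 1))) := by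
      conv_lhs => rw [e1]
      rw [Finset.sum_range_succ]
      simp only [Nat.sub_add_cancel hN1]
    rw [e2]
    have e3 : volume.real (U ∩ Set.Ico (ang Nf (Nf - 1)) (ang Nf (Nf - 1 + 1))) ≤ 1 / s := by
      refine (sector_le b ε hk0 hK hN1 U hU1).1.trans ?_
      rw [div_le_div_iff₀ hNr hs0]
      nlinarith
    have e4 : ∀ w ∈ Finset.range (Nf - 1),
        volume.real (U ∩ Set.Ico (ang Nf w) (ang Nf (w + 1))) ≤
        (if s ≤ (k : ℝ) ^ 3 * (fan b ε k K₁ Nf w).card then 2 * Real.pi / Nf else 0) +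
          2 / (k ^ 3 * s) := by
      intro w _
      obtain ⟨p1, p2⟩ := sector_le b ε (w := w) hk0 hK hN1 U hU1
      have h0 : (0 : ℝ) ≤ 2 / (k ^ 3 * s) := by positivity
      split_ifs with hw
      · linarith
      · rw [not_le] at hw
        rw [zero_add]
        refine p2.trans ?_
        rw [← hs2]
        have h3 : ((fan b ε k K₁ Nf w).card : ℝ) ≤ s / k ^ 3 := by
          rw [le_div_iff₀ (by positivity)]
          linarith
        calc ((fan b ε k K₁ Nf w).card : ℝ) * (2 / s ^ 2) ≤ s / k ^ 3 * (2 / s ^ 2) :=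
              mul_le_mul_of_nonneg_right h3 (by positivity)
          _ = 2 / (k ^ 3 * s) := by
              field_simp
    have e5 := Finset.sum_le_sum e4
    rw [Finset.sum_add_distrib, ← Finset.sum_filter, ← hA, Finset.sum_const, Finset.sum_const,
      nsmul_eq_mul, nsmul_eq_mul, Finset.card_range] at e5
    have e6 : ((Nf - 1 : ℕ) : ℝ) * (2 / (k ^ 3 * s)) ≤ 28 * c₀ / k ^ 3 := by
      have h1 : ((Nf - 1 : ℕ) : ℝ) ≤ 14 * c₀ * s := by
        refine le_trans ?_ hN14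
        exact_mod_cast Nat.sub_le Nf 1
      calc ((Nf - 1 : ℕ) : ℝ) * (2 / (k ^ 3 * s)) ≤ 14 * c₀ * s * (2 / (k ^ 3 * s)) :=
            mul_le_mul_of_nonneg_right h1 (by positivity)
        _ = 28 * c₀ / k ^ 3 := by
            field_simp
            ring
    linarith
  have hA14 : (Nf : ℝ) / (14 * k ^ 2) ≤ A.card := by
    have h1 : (28 : ℝ) * c₀ / k ^ 3 ≤ 1 / (4 * k ^ 2) := by
      rw [div_le_div_iff₀ (by positivity) (by positivity)]
      have h2 : (112 : ℝ) * c₀ ≤ k := by exact_mod_cast hkc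
      have h3 : (0 : ℝ) < k ^ 2 := by positivity
      nlinarith
    have h2 : 1 / s ≤ 1 / (4 * (k : ℝ) ^ 2) := one_div_le_one_div_of_le (by positivity) hs4
    have h3 : (1 : ℝ) / k ^ 2 = 4 * (1 / (4 * (k : ℝ) ^ 2)) := by
      field_simp
    have h4 : 2 * (1 / (4 * (k : ℝ) ^ 2)) ≤ A.card * (2 * Real.pi / Nf) := by linarith
    rw [div_le_iff₀ (by positivity)]
    have h5 : 2 * (1 / (4 * (k : ℝ) ^ 2)) = 1 / (2 * k ^ 2) := by
      field_simp
      ring
    rw [h5, div_le_iff₀ (by positivity)] at h4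
    have h6 : (Nf : ℝ) ≤ A.card * (2 * Real.pi) * (2 * k ^ 2) := by
      have h7 : (A.card : ℝ) * (2 * Real.pi / Nf) * (2 * k ^ 2) * Nf =
          A.card * (2 * Real.pi) * (2 * k ^ 2) := by
        field_simp
      calc (Nf : ℝ) = 1 * Nf := by ring
        _ ≤ (A.card : ℝ) * (2 * Real.pi / Nf) * (2 * k ^ 2) * Nf :=
            mul_le_mul_of_nonneg_right h4 hNr.le
        _ = _ := h7
    refine h6.trans ?_
    have h8 : (0 : ℝ) ≤ A.card * k ^ 2 := by positivity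
    nlinarith
  -- the bad sectors
  have hbad : ∀ j ≤ m, (((Finset.range (Nf - 1)).filter fun w =>
      (k : ℝ) ^ 3 * s < (sums (fan b ε k K₁ Nf w) j).card).card : ℝ) ≤ |C| * Nf / k ^ 3 := by
    intro j hj
    have h1 := hS j hj
    push_cast at h1
    have h2 : (((Finset.range (Nf - 1)).filter fun w =>
        (k : ℝ) ^ 3 * s < (sums (fan b ε k K₁ Nf w) j).card).card : ℝ) * ((k : ℝ) ^ 3 * s) ≤
        ∑ w ∈ Finset.range (Nf - 1), ((sums (fan b ε k K₁ Nf w) j).card : ℝ) := by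
      rw [← nsmul_eq_mul]
      refine (Finset.card_nsmul_le_sum _ (fun w => ((sums (fan b ε k K₁ Nf w) j).card : ℝ)) _
        fun w hw => (Finset.mem_filter.1 hw).2.le).trans ?_
      exact Finset.sum_le_sum_of_subset_of_nonneg (Finset.filter_subset _ _)
        fun _ _ _ => Nat.cast_nonneg _
    rw [le_div_iff₀ (by positivity)]
    have h3 : C * 2 ^ k ≤ |C| * s ^ 2 := by
      rw [hs2]
      exact mul_le_mul_of_nonneg_right (le_abs_self C) (by positivity)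
    have h4 := h2.trans (h1.trans h3)
    have h5 : (((Finset.range (Nf - 1)).filter fun w =>
        (k : ℝ) ^ 3 * s < (sums (fan b ε k K₁ Nf w) j).card).card : ℝ) * k ^ 3 ≤ |C| * s := by
      have h6 : ∀ X : ℝ, X * ((k : ℝ) ^ 3 * s) ≤ |C| * s ^ 2 → X * k ^ 3 ≤ |C| * s := by
        intro X hX
        have h7 : X * (k : ℝ) ^ 3 * s ≤ |C| * s * s := by nlinarith
        exact le_of_mul_le_mul_right h7 hs0
      exact h6 _ h4
    refine h5.trans (mul_le_mul_of_nonneg_left ?_ (abs_nonneg C))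
    linarith
  obtain ⟨Bd, hBd⟩ : ∃ Bd : Finset ℕ, Bd = (Finset.range (m + 1)).biUnion fun j =>
    (Finset.range (Nf - 1)).filter fun w =>
      (k : ℝ) ^ 3 * s < (sums (fan b ε k K₁ Nf w) j).card := ⟨_, rfl⟩
  have hBcard : (Bd.card : ℝ) ≤ (m + 1) * (|C| * Nf / k ^ 3) := by
    have h1 : Bd.card ≤ ∑ j ∈ Finset.range (m + 1), ((Finset.range (Nf - 1)).filter fun w =>
      (k : ℝ) ^ 3 * s < (sums (fan b ε k K₁ Nf w) j).card).card := by
      rw [hBd]
      exact Finset.card_biUnion_le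
    have h2 : (Bd.card : ℝ) ≤ ∑ j ∈ Finset.range (m + 1),
        (((Finset.range (Nf - 1)).filter fun w =>
      (k : ℝ) ^ 3 * s < (sums (fan b ε k K₁ Nf w) j).card).card : ℝ) := by exact_mod_cast h1
    refine h2.trans ((Finset.sum_le_card_nsmul _ _ _ fun j hj => hbad j (by
      have := Finset.mem_range.1 hj
      omega)).trans (le_of_eq ?_))
    rw [Finset.card_range, nsmul_eq_mul]
    push_cast
    ring
  have hgood : (Nf : ℝ) / (28 * k ^ 2) ≤ (A \ Bd).card := by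
    have h1 : A.card ≤ (A \ Bd).card + Bd.card := by
      have := Finset.card_sdiff_add_card A Bd
      have h2 : A.card ≤ (A ∪ Bd).card := Finset.card_le_card Finset.subset_union_left
      omega
    have h2 : (A.card : ℝ) ≤ (A \ Bd).card + Bd.card := by exact_mod_cast h1
    have h3 : ((m : ℝ) + 1) * (|C| * Nf / k ^ 3) ≤ Nf / (28 * k ^ 2) := by
      have h4 : 28 * ((m : ℝ) + 1) * |C| ≤ k := by
        have h5 : ((28 * (m + 1) * ⌈|C|⌉₊ : ℕ) : ℝ) ≤ k := by exact_mod_cast hkC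
        push_cast at h5
        have h6 := Nat.le_ceil |C|
        have h7 : 28 * ((m : ℝ) + 1) * |C| ≤ 28 * ((m : ℝ) + 1) * ⌈|C|⌉₊ :=
          mul_le_mul_of_nonneg_left h6 (by positivity)
        linarith
      have h8 : ((m : ℝ) + 1) * (|C| * Nf / k ^ 3) = (28 * ((m : ℝ) + 1) * |C|) *
          (Nf / (28 * k ^ 3)) := by
        field_simp
      rw [h8]
      calc (28 * ((m : ℝ) + 1) * |C|) * (Nf / (28 * k ^ 3)) ≤ k * (Nf / (28 * k ^ 3)) :=
            mul_le_mul_of_nonneg_right h4 (by positivity)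
        _ = Nf / (28 * k ^ 2) := by
            field_simp
    have h4 : (Nf : ℝ) / (14 * k ^ 2) = 2 * (Nf / (28 * k ^ 2)) := by
      field_simp
      ring
    rw [h4] at hA14
    linarith
  -- the pigeonhole principle
  have hblk : ∀ w ∈ A \ Bd, w / H ∈ Finset.range 7 := by
    intro w hw
    have h1 : w ∈ A := (Finset.mem_sdiff.1 hw).1
    rw [hA, Finset.mem_filter, Finset.mem_range] at h1
    rw [Finset.mem_range, Nat.div_lt_iff_lt_mul (by omega)]
    omega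
  obtain ⟨b₀, hb₀, hcard⟩ := Finset.exists_le_card_fiber_of_nsmul_le_card_of_maps_to
    (s := A \ Bd) (t := Finset.range 7) (f := fun w => w / H)
    (b := ((A \ Bd).card : ℝ) / 7) hblk ⟨0, by simp⟩ (by
      rw [Finset.card_range, nsmul_eq_mul]
      push_cast
      linarith)
  refine ⟨b₀, Finset.mem_range.1 hb₀, (A \ Bd).filter fun w => w / H = b₀, ?_, ?_, ?_⟩
  · intro w hw
    have h1 := (Finset.mem_filter.1 hw).2
    constructor
    · rw [← h1]
      exact Nat.div_mul_le_self w H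
    · rw [← h1]
      exact Nat.lt_mul_of_div_lt (Nat.lt_succ_self _) (by omega)
  · have h1 : (Nf : ℝ) ≤ (k : ℝ) ^ 3 * ((A \ Bd).filter fun w => w / H = b₀).card := by
      have h2 : (Nf : ℝ) / (28 * k ^ 2) / 7 ≤ ((A \ Bd).filter fun w => w / H = b₀).card := by
        refine le_trans ?_ hcard
        exact div_le_div_of_nonneg_right hgood (by norm_num)
      calc (Nf : ℝ) = (196 * k ^ 2) * (Nf / (28 * k ^ 2) / 7) := by
            field_simp
            ring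
        _ ≤ (k : ℝ) ^ 3 * (Nf / (28 * k ^ 2) / 7) := by
            refine mul_le_mul_of_nonneg_right ?_ (by positivity)
            have h3 : (0 : ℝ) ≤ k ^ 2 := by positivity
            nlinarith
        _ ≤ _ := mul_le_mul_of_nonneg_left h2 (by positivity)
    exact_mod_cast h1
  · intro w hw
    have h1 := (Finset.mem_filter.1 hw).1
    rw [Finset.mem_sdiff] at h1
    have h2 := h1.1
    rw [hA, Finset.mem_filter] at h2
    refine ⟨h2.2, fun j hj => ?_⟩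
    by_contra h3
    rw [not_le] at h3
    apply h1.2
    rw [hBd, Finset.mem_biUnion]
    exact ⟨j, Finset.mem_range.2 (by omega), Finset.mem_filter.2 ⟨h2.1, h3⟩⟩

end Pool.Agent.Work.MP_0d53be_an.Full
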