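import Pool.Agent.Work.MP_0d53be_an.Full.C.Fan
import Pool.Agent.Work.MP_0d53be_an.Full.C.Count

/-!
# C/SumCount: the sum sets of the fans are small on average

Let `m : ℕ`, `ε̄ > 0`. There are `ε > 0`, `K₁ ≥ 1`, `c₀ ≥ 1`, `C` such that
(near) the conclusion of `fan_near` holds with `Mb = 4 * 2^m` and `ε̄`, and
(count) for `k ≥ 1`, `c₀² 2^k ≤ Nf²`, `Nf ≤ 2^k`, `j ≤ m`:
`∑_{w < Nf - 1} card (sums (fan w) j) ≤ C 2^k`.

Proof. For `j ≤ m` let `ε_j > 0` be given by `count_fan` with `M = 2^j` (`b^(2^j + 1) ≠ 0`). Let `ε'`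
be the minimum of `ε̄` and the `ε_j/2`, `j ≤ m`. `fan_near` with `Mb = 4 * 2^m` and `ε'` gives
`ε, K₁, c₀'`. Let `c₀ = max c₀' (40 * 2^m)` (the property of `fan_near` passes to larger `c₀`:
`c₀² 2^k ≤ Nf²` becomes stronger and `1/c₀` smaller), `C` the maximum of the constants `C_j` of
`count_fan` for this `K₁`. (near) follows by `NR_mono`.
(count) Fix `j ≤ m`, `M = 2^j`, `R = 2^k`. For `w < Nf - 1` let `F w` be the image of
`sums (fan w) j` under `z ↦ ((z.1/K₁).toNat, z.2.toNat)`; by `fan_bounds` `z.1 = K₁ N`, `z.2 ≥ 0`, so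
the map is injective on this set and `card (F w) = card (sums (fan w) j)`. `fan_bounds`:
`2 N > 2^j 2^k ≥ R` (`2 * 2^(k-1) = 2^k`), `N ≤ M R`, and `z.2 Nf ≤ 2π z.1 = 2π K₁ N` gives
`z.2/(K₁N) ≤ 2π/Nf`. Put `φ = z.2/(K₁ N) ∈ [0, 2π/Nf]`, `θ = ang Nf w + φ`, `y = Ew θ N`. By
`sums_decomp` `z = ∑ x_i`, `x_i ∈ fan w`, and
`∑_i Ew (ang Nf w) (toC x_i/K₁) = Ew (ang Nf w) (toC z/K₁) = Ew (ang Nf w) (N + i z.2/K₁)` (additivity;
`Ew_add`, `Ew_zero`). By `Ew_near` with `a = z.2/K₁ = N φ`: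
`‖y - ...‖ ≤ N φ² ≤ 2^j 2^k (2π/Nf)² ≤ 2^m * 40/c₀² ≤ 1/c₀`. So `NR b M ε' y`, and
`exp (ev b y) = (1 + e^{iθ} b)^N` (`exp_Ew_nat`): the near return condition of `count_fan` with
`ε' < ε_j`. `count_fan` gives the bound.
-/

set_option autoImplicit false

namespace Pool.Agent.Work.MP_0d53be_an.Full

variable {B : Type*} [NormedCommRing B] [NormedAlgebra ℂ B] [CompleteSpace B]

/-- Sums of fan points are near returns. -/
def NearProp (b : B) (Mb : ℕ) (εb ε : ℝ) (K₁ c₀ : ℕ) : Prop :=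
  ∀ k Nf : ℕ, 1 ≤ k → c₀ ^ 2 * 2 ^ k ≤ Nf ^ 2 → ∀ M : ℕ, 1 ≤ M → M ≤ Mb →
    ∀ (w : Fin M → ℕ) (z : Fin M → G), (∀ i, z i ∈ fan b ε k K₁ Nf (w i)) → ∀ y : Ex,
      ‖y - ∑ i, Ew (ang Nf (w i)) (toC (z i) / K₁)‖ ≤ 1 / c₀ → NR b M εb y

private theorem toC_sum {ι : Type*} (s : Finset ι) (x : ι → G) :
    toC (∑ i ∈ s, x i) = ∑ i ∈ s, toC (x i) := by
  classical
  induction s using Finset.induction_on with
  | empty =>
    rw [Finset.sum_empty, Finset.sum_empty]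
    apply Complex.ext <;> simp [toC]
  | insert a s ha ih =>
    rw [Finset.sum_insert ha, Finset.sum_insert ha, ← ih]
    apply Complex.ext <;> simp [toC]

private theorem Ew_sum {ι : Type*} (θ : ℝ) (s : Finset ι) (x : ι → ℂ) :
    Ew θ (∑ i ∈ s, x i) = ∑ i ∈ s, Ew θ (x i) := by
  classical
  induction s using Finset.induction_on with
  | empty => rw [Finset.sum_empty, Finset.sum_empty, Ew_zero]
  | insert a s ha ih => rw [Finset.sum_insert ha, Finset.sum_insert ha, Ew_add, ih]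

private theorem toC_div {K₁ N : ℕ} (hK : 1 ≤ K₁) {z : G} (hz : z.1 = K₁ * N) :
    toC z / K₁ = (N : ℝ) + (z.2 / K₁ : ℝ) * Complex.I := by
  have hK0 : (K₁ : ℂ) ≠ 0 := by
    have : (K₁ : ℝ) ≠ 0 := by positivity
    exact_mod_cast this
  have h1 : toC z = (K₁ : ℂ) * N + (z.2 : ℂ) * Complex.I := by
    apply Complex.ext
    · simp [toC, hz]
    · simp [toC]
  rw [h1]
  push_cast
  field_simp

theorem sums_count {b : B} (h : QNb b) (hb : ∀ n : ℕ, b ^ n ≠ 0) (m : ℕ) {εb : ℝ} (hε : 0 < εb) :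
    ∃ ε : ℝ, 0 < ε ∧ ∃ K₁ : ℕ, 1 ≤ K₁ ∧ ∃ c₀ : ℕ, 1 ≤ c₀ ∧ ∃ C : ℝ,
      NearProp b (4 * 2 ^ m) εb ε K₁ c₀ ∧
      ∀ k Nf : ℕ, 1 ≤ k → c₀ ^ 2 * 2 ^ k ≤ Nf ^ 2 → Nf ≤ 2 ^ k → ∀ j ≤ m,
        ((∑ w ∈ Finset.range (Nf - 1), (sums (fan b ε k K₁ Nf w) j).card : ℕ) : ℝ) ≤
          C * 2 ^ k := by
  classical
  choose E hE0 hE using fun j : ℕ => count_fan h (2 ^ j) Nat.one_le_two_pow (hb _)
  obtain ⟨j₀, -, hj₀⟩ := Finset.exists_min_image (Finset.range (m + 1)) E ⟨0, by simp⟩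
  obtain ⟨δ, hδ⟩ : ∃ δ : ℝ, δ = E j₀ / 2 := ⟨_, rfl⟩
  have hδ0 : 0 < δ := by
    rw [hδ]
    exact half_pos (hE0 j₀)
  have hδE : ∀ j ≤ m, δ < E j := by
    intro j hj
    have h1 := hj₀ j (Finset.mem_range.2 (by omega))
    linarith [hE0 j, hE0 j₀]
  have hε' : 0 < min εb δ := lt_min hε hδ0
  obtain ⟨ε, hε0, K₁, hK₁, c₀', hc₀', hn⟩ := fan_near h (4 * 2 ^ m) hε'
  choose C hC using fun j : ℕ => hE j K₁ hK₁
  refine ⟨ε, hε0, K₁, hK₁, max c₀' (40 * 2 ^ m), le_max_of_le_left hc₀',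
    ∑ j ∈ Finset.range (m + 1), |C j|, ?_, ?_⟩
  · intro k Nf hk hc M hM1 hM2 w z hz y hy
    have hc1 : c₀' ^ 2 * 2 ^ k ≤ Nf ^ 2 := by
      refine le_trans (Nat.mul_le_mul_right _ (Nat.pow_le_pow_left (le_max_left _ _) 2)) hc
    refine NR_mono (min_le_left _ _) (hn k Nf hk hc1 M hM1 hM2 w z hz y (hy.trans ?_))
    have h1 : (0 : ℝ) < c₀' := by exact_mod_cast hc₀'
    have h2 : (c₀' : ℝ) ≤ ((max c₀' (40 * 2 ^ m) : ℕ) : ℝ) := by
      exact_mod_cast le_max_left _ _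
    exact one_div_le_one_div_of_le h1 h2
  · intro k Nf hk hc hNf j hj
    obtain ⟨c₀, hc₀⟩ : ∃ c₀, c₀ = max c₀' (40 * 2 ^ m) := ⟨_, rfl⟩
    rw [← hc₀] at hc
    have hcc : c₀' ≤ c₀ := by
      rw [hc₀]
      exact le_max_left _ _
    have hc40 : 40 * 2 ^ m ≤ c₀ := by
      rw [hc₀]
      exact le_max_right _ _
    have hc0 : 1 ≤ c₀ := hc₀'.trans hcc
    have hNf1 : 1 ≤ Nf := by
      by_contra h0
      have h1 : Nf = 0 := by omega
      rw [h1] at hc
      have h2 : 0 < c₀ ^ 2 * 2 ^ k := by positivity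
      simp only [ne_eq, OfNat.ofNat_ne_zero, not_false_eq_true, zero_pow] at hc
      omega
    have hc1 : c₀' ^ 2 * 2 ^ k ≤ Nf ^ 2 :=
      le_trans (Nat.mul_le_mul_right _ (Nat.pow_le_pow_left hcc 2)) hc
    have hNr : (0 : ℝ) < Nf := by exact_mod_cast hNf1
    have hKr : (0 : ℝ) < K₁ := by exact_mod_cast hK₁
    set F : ℕ → Finset (ℕ × ℕ) := fun w =>
      (sums (fan b ε k K₁ Nf w) j).image (fun z => ((z.1 / (K₁ : ℤ)).toNat, z.2.toNat)) with hF
    have hdiv : ∀ N : ℕ, ((K₁ : ℤ) * N / K₁).toNat = N := by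
      intro N
      rw [Int.mul_ediv_cancel_left _ (by positivity)]
      exact Int.toNat_natCast N
    have hcard : ∀ w, (F w).card = (sums (fan b ε k K₁ Nf w) j).card := by
      intro w
      rw [hF]
      refine Finset.card_image_of_injOn ?_
      intro z hz z' hz' he
      obtain ⟨⟨N, h1, -, -⟩, h2, -⟩ := fan_bounds hk hK₁ hNf1 (Finset.mem_coe.1 hz)
      obtain ⟨⟨N', h1', -, -⟩, h2', -⟩ := fan_bounds hk hK₁ hNf1 (Finset.mem_coe.1 hz')
      simp only [Prod.mk.injEq] at he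
      rw [h1, h1', hdiv, hdiv] at he
      apply Prod.ext
      · rw [h1, h1', he.1]
      · have := he.2
        omega
    have key := hC j (2 ^ k) Nf hNf1 hNf F ?_
    · have e1 : ∑ w ∈ Finset.range (Nf - 1), (sums (fan b ε k K₁ Nf w) j).card =
          ∑ w ∈ Finset.range (Nf - 1), (F w).card :=
        Finset.sum_congr rfl fun w _ => (hcard w).symm
      rw [e1]
      refine key.trans ?_
      have e2 : C j ≤ ∑ j ∈ Finset.range (m + 1), |C j| :=
        (le_abs_self _).trans (Finset.single_le_sum (f := fun j => |C j|)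
          (fun i _ => abs_nonneg _) (Finset.mem_range.2 (by omega)))
      push_cast
      exact mul_le_mul_of_nonneg_right e2 (by positivity)
    · intro w _ q hq
      rw [hF, Finset.mem_image] at hq
      obtain ⟨z, hz, rfl⟩ := hq
      obtain ⟨⟨N, h1, h2, h3⟩, h4, h5⟩ := fan_bounds hk hK₁ hNf1 hz
      obtain ⟨q, hq⟩ := Int.eq_ofNat_of_zero_le h4
      have hq' : z.2.toNat = q := by
        rw [hq]
        exact Int.toNat_natCast q
      have hqr : (z.2 : ℝ) = q := by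
        rw [hq]
        push_cast
        rfl
      simp only
      rw [h1, hdiv, hq']
      have hN0 : 0 < N := by omega
      have hNN : (0 : ℝ) < N := by exact_mod_cast hN0
      have hKN : (0 : ℝ) < K₁ * N := by positivity
      have h1r : (z.1 : ℝ) = K₁ * N := by
        rw [h1]
        push_cast
        ring
      rw [hqr, h1r] at h5
      have hφ : (q : ℝ) / (K₁ * N) ≤ 2 * Real.pi / Nf := by
        rw [div_le_div_iff₀ hKN hNr]
        exact h5
      refine ⟨?_, h3, hφ, ?_⟩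
      · have h6 : 2 ^ k = 2 * 2 ^ (k - 1) := by
          rw [← pow_succ']
          congr 1
          omega
        have h7 : 1 * 2 ^ (k - 1) ≤ 2 ^ j * 2 ^ (k - 1) :=
          Nat.mul_le_mul_right _ Nat.one_le_two_pow
        omega
      · obtain ⟨x, hx, hxz⟩ := sums_decomp hz
        have hjm : 2 ^ j ≤ 4 * 2 ^ m := by
          have : 2 ^ j ≤ 2 ^ m := Nat.pow_le_pow_right (by norm_num) hj
          omega
        have hsum : ∑ i, Ew (ang Nf w) (toC (x i) / K₁) =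
            Ew (ang Nf w) ((N : ℝ) + (q / K₁ : ℝ) * Complex.I) := by
          rw [← Ew_sum, ← Finset.sum_div, ← toC_sum, hxz, toC_div hK₁ h1, hqr]
        have hnr := hn k Nf hk hc1 (2 ^ j) Nat.one_le_two_pow hjm (fun _ => w) x hx
          (Ew (ang Nf w + q / (K₁ * N)) ((N : ℝ) : ℂ)) ?_
        · obtain ⟨l, hl, h6⟩ := hnr
          refine ⟨l, hl, lt_of_le_of_lt ?_ (hδE j hj)⟩
          have e1 : (((N : ℝ) : ℂ)) = (N : ℂ) := Complex.ofReal_natCast N
          rw [e1, exp_Ew_nat h] at h6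
          exact h6.trans (min_le_right _ _)
        · rw [hsum]
          refine (Ew_near _ _ _ _).trans ?_
          have e1 : (N : ℝ) * (q / (K₁ * N)) - q / K₁ = 0 := by
            field_simp
            ring
          rw [e1, abs_zero, add_zero, abs_of_pos hNN]
          have hpi := Real.pi_lt_d2
          have hpi0 := Real.pi_pos
          have hφ0 : 0 ≤ (q : ℝ) / (K₁ * N) := by positivity
          have e2 : ((q : ℝ) / (K₁ * N)) ^ 2 ≤ 40 / Nf ^ 2 := by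
            have e3 : ((q : ℝ) / (K₁ * N)) ^ 2 ≤ (2 * Real.pi / Nf) ^ 2 :=
              pow_le_pow_left₀ hφ0 hφ 2
            refine e3.trans ?_
            rw [div_pow]
            refine div_le_div_of_nonneg_right ?_ (by positivity)
            nlinarith
          have hcr : (0 : ℝ) < c₀ := by exact_mod_cast hc0
          have hcr' : (0 : ℝ) < c₀' := by exact_mod_cast hc₀'
          have e4 : (N : ℝ) ≤ 2 ^ m * 2 ^ k := by
            have h7 : N ≤ 2 ^ m * 2 ^ k :=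
              h3.trans (Nat.mul_le_mul_right _ (Nat.pow_le_pow_right (by norm_num) hj))
            exact_mod_cast h7
          have e5 : (c₀ : ℝ) ^ 2 * 2 ^ k ≤ Nf ^ 2 := by exact_mod_cast hc
          have e6 : (40 : ℝ) * 2 ^ m ≤ c₀ := by exact_mod_cast hc40
          have e7 : (c₀' : ℝ) ≤ c₀ := by exact_mod_cast hcc
          calc (N : ℝ) * (q / (K₁ * N)) ^ 2 ≤ (2 ^ m * 2 ^ k) * (40 / Nf ^ 2) :=
                mul_le_mul e4 e2 (sq_nonneg _) (by positivity)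
            _ = (40 * 2 ^ m) * (2 ^ k / Nf ^ 2) := by ring
            _ ≤ c₀ * (2 ^ k / Nf ^ 2) := mul_le_mul_of_nonneg_right e6 (by positivity)
            _ ≤ 1 / c₀ := by
                rw [mul_div_assoc', div_le_div_iff₀ (by positivity) hcr]
                nlinarith
            _ ≤ 1 / c₀' := one_div_le_one_div_of_le hcr' e7

end Pool.Agent.Work.MP_0d53be_an.Full
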